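import Pool.Agent.K7.H66.TD.Defs2
import Pool.Agent.K7.H66.TD.Base

/-!
# Job SEG2 of project TD (helper66): `StTwo → StDeep → StSeg`
-/

set_option autoImplicit false

namespace Pool.Agent.K7.H5.TD

open Finset Pool.Agent.K7.H66.TD

/-! ### orders -/

theorem h2_unit (n : ℕ) : ∃ w : (ZMod (3 ^ n))ˣ, h2 n = (w : ZMod (3 ^ n)) := by
  have hc : Nat.Coprime 2 (3 ^ n) := Nat.Coprime.pow_right n (by norm_num)
  refine ⟨(ZMod.unitOfCoprime 2 hc)⁻¹, ?_⟩
  rw [h2, ← ZMod.inv_coe_unit, ZMod.coe_unitOfCoprime]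
  norm_num

theorem ord_mul_unit {n q : ℕ} {a : ZMod (3 ^ n)} (h : HasOrd n q a) (w : (ZMod (3 ^ n))ˣ) :
    HasOrd n q (a * w) := by
  obtain ⟨h1, u, hu⟩ := h
  exact ⟨h1, u * w, by rw [hu, Units.val_mul]; ring⟩

theorem ord_three_mul {n q : ℕ} {a : ZMod (3 ^ n)} (h : HasOrd n (q + 1) a) :
    HasOrd n q (3 * a) := by
  obtain ⟨h1, u, hu⟩ := h
  refine ⟨by omega, u, ?_⟩
  have h2 : n - q = n - (q + 1) + 1 := by omega
  rw [hu, h2, pow_succ]
  ring

/-- the least absolute residue of an element of order `3 ^ q` -/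
theorem ord_valMinAbs {n q : ℕ} {A : ZMod (3 ^ n)} (h : HasOrd n q A) (hq : 1 ≤ q) :
    A.valMinAbs ≠ 0 ∧ ∀ (v : ℕ) (b' : ℤ), A.valMinAbs = 2 ^ v * b' → 5 * v < 8 * q := by
  obtain ⟨h1, u, hu⟩ := h
  have hne : A.valMinAbs ≠ 0 := by
    intro h0
    have hA : A = 0 := by
      rw [← ZMod.coe_valMinAbs A, h0]
      simp
    rw [hA] at hu
    have h3 : ((3 ^ (n - q) : ℕ) : ZMod (3 ^ n)) = 0 := by
      have h4 := congrArg (fun z => z * ((u⁻¹ : (ZMod (3 ^ n))ˣ) : ZMod (3 ^ n))) hu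
      simp only [zero_mul] at h4
      rw [mul_assoc, Units.mul_inv, mul_one] at h4
      push_cast
      exact h4.symm
    rw [ZMod.natCast_eq_zero_iff] at h3
    have h5 := (Nat.pow_dvd_pow_iff_le_right (by norm_num : 1 < 3)).1 h3
    omega
  refine ⟨hne, ?_⟩
  intro v b' hb
  -- `3 ^ (n - q)` divides `b`
  have hd : ((3 : ℤ) ^ (n - q)) ∣ A.valMinAbs := by
    have h2 : ((A.valMinAbs - 3 ^ (n - q) * ((u : ZMod (3 ^ n)).valMinAbs) : ℤ) : ZMod (3 ^ n)) = 0 := by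
      push_cast
      rw [hu]
      ring
    rw [ZMod.intCast_zmod_eq_zero_iff_dvd] at h2
    have h3 : ((3 : ℤ) ^ (n - q)) ∣ ((3 ^ n : ℕ) : ℤ) := by
      push_cast
      exact pow_dvd_pow 3 (Nat.sub_le _ _)
    have h4 := h3.trans h2
    have h5 := (dvd_sub_left (Dvd.intro _ rfl :
      ((3 : ℤ) ^ (n - q)) ∣ 3 ^ (n - q) * ((u : ZMod (3 ^ n)).valMinAbs))).1 h4
    exact h5
  have hd' : 3 ^ (n - q) ∣ A.valMinAbs.natAbs := by
    have := Int.natAbs_dvd_natAbs.2 hd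
    rwa [Int.natAbs_pow] at this
  obtain ⟨b0, hb0⟩ := hd'
  have hle := ZMod.natAbs_valMinAbs_le A
  have hpos : 0 < A.valMinAbs.natAbs := Int.natAbs_pos.2 hne
  have h2v : 2 ^ v ∣ A.valMinAbs.natAbs := by
    have : (2 : ℤ) ^ v ∣ A.valMinAbs := ⟨b', hb⟩
    have := Int.natAbs_dvd_natAbs.2 this
    rwa [Int.natAbs_pow] at this
  have h2b0 : 2 ^ v ∣ b0 := by
    rw [hb0] at h2v
    exact (Nat.Coprime.dvd_of_dvd_mul_left
      (Nat.Coprime.pow _ _ (by norm_num : Nat.Coprime 2 3)) h2v)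
  have hb0pos : 0 < b0 := by
    rcases Nat.eq_zero_or_pos b0 with h | h
    · rw [h, mul_zero] at hb0
      omega
    · exact h
  have h6 : 2 ^ v ≤ b0 := Nat.le_of_dvd hb0pos h2b0
  have h7 : b0 < 3 ^ q := by
    have h8 : 3 ^ (n - q) * b0 < 3 ^ (n - q) * 3 ^ q := by
      rw [← hb0, ← pow_add, Nat.sub_add_cancel h1]
      have h9 : 0 < 3 ^ n := by positivity
      omega
    exact lt_of_mul_lt_mul_left h8 (Nat.zero_le _)
  have h8 : 2 ^ v < 3 ^ q := h6.trans_lt h7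
  have h9 : 2 ^ (5 * v) < 2 ^ (8 * q) := by
    calc 2 ^ (5 * v) = (2 ^ v) ^ 5 := by rw [← pow_mul]; ring_nf
      _ < (3 ^ q) ^ 5 := Nat.pow_lt_pow_left h8 (by norm_num)
      _ = (3 ^ 5) ^ q := by rw [← pow_mul, ← pow_mul]; ring_nf
      _ ≤ (2 ^ 8) ^ q := Nat.pow_le_pow_left (by norm_num) q
      _ = 2 ^ (8 * q) := by rw [← pow_mul]
  exact (Nat.pow_lt_pow_iff_right (by norm_num)).1 h9

/-! ### binomial coefficients -/

theorem choose_two (s i : ℕ) : (s + 2).choose (i + 2) =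
    s.choose (i + 2) + 2 * s.choose (i + 1) + s.choose i := by
  rw [Nat.choose_succ_succ (s + 1) (i + 1), Nat.choose_succ_succ s i,
    Nat.choose_succ_succ s (i + 1)]
  ring

theorem choose_mid (s i : ℕ) (hi : i ≤ s) :
    ((s + 2).choose (i + 2) : ℝ) * ((i + 2) * (s - i)) =
      (s + 2) * (s + 1) * (s.choose (i + 1) : ℝ) := by
  have h1 : (s + 1 + 1) * (s + 1).choose (i + 1) = (s + 1 + 1).choose (i + 1 + 1) * (i + 1 + 1) :=
    Nat.add_one_mul_choose_eq (s + 1) (i + 1)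
  have h2 : s.choose (i + 1) * (s + 1) = (s + 1).choose (i + 1) * (s + 1 - (i + 1)) :=
    Nat.choose_mul_succ_eq s (i + 1)
  have h1' : ((s : ℝ) + 2) * ((s + 1).choose (i + 1) : ℝ) =
      ((s + 2).choose (i + 2) : ℝ) * ((i : ℝ) + 2) := by
    have : (((s + 1 + 1) * (s + 1).choose (i + 1) : ℕ) : ℝ) =
        (((s + 1 + 1).choose (i + 1 + 1) * (i + 1 + 1) : ℕ) : ℝ) := by rw [h1]
    push_cast at this
    linarith
  have h2' : (s.choose (i + 1) : ℝ) * ((s : ℝ) + 1) =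
      ((s + 1).choose (i + 1) : ℝ) * ((s : ℝ) - i) := by
    have : ((s.choose (i + 1) * (s + 1) : ℕ) : ℝ) =
        (((s + 1).choose (i + 1) * (s + 1 - (i + 1)) : ℕ) : ℝ) := by rw [h2]
    have h3 : s + 1 - (i + 1) = s - i := by omega
    rw [h3] at this
    push_cast [Nat.cast_sub hi] at this
    linarith
  calc ((s + 2).choose (i + 2) : ℝ) * ((i + 2) * (s - i))
      = (((s + 2).choose (i + 2) : ℝ) * ((i : ℝ) + 2)) * ((s : ℝ) - i) := by ring
    _ = (((s : ℝ) + 2) * ((s + 1).choose (i + 1) : ℝ)) * ((s : ℝ) - i) := by rw [h1']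
    _ = ((s : ℝ) + 2) * (((s + 1).choose (i + 1) : ℝ) * ((s : ℝ) - i)) := by ring
    _ = ((s : ℝ) + 2) * ((s.choose (i + 1) : ℝ) * ((s : ℝ) + 1)) := by rw [h2']
    _ = _ := by ring

/-- near the middle the middle term is about a quarter -/
theorem mid_bounds (s i : ℕ) (hs : 98 ≤ s)
    (hb : 40 * |2 * ((i : ℝ) + 2) - (s + 2)| ≤ s + 2) :
    (0.249 : ℝ) * (s + 2).choose (i + 2) ≤ s.choose (i + 1) ∧
      (s.choose (i + 1) : ℝ) ≤ 0.253 * (s + 2).choose (i + 2) := by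
  have hs' : (98 : ℝ) ≤ s := by exact_mod_cast hs
  rw [← abs_of_pos (show (0 : ℝ) < 40 by norm_num), ← abs_mul, abs_le] at hb
  have hi : i ≤ s := by
    have : (i : ℝ) ≤ s := by linarith [hb.2]
    exact_mod_cast this
  have h := choose_mid s i hi
  set X : ℝ := ((s + 2).choose (i + 2) : ℝ) with hX
  set Y : ℝ := (s.choose (i + 1) : ℝ) with hY
  have hX0 : 0 ≤ X := Nat.cast_nonneg _
  have hY0 : 0 ≤ Y := Nat.cast_nonneg _
  have hpos : (0 : ℝ) < (s + 2) * (s + 1) := by positivity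
  constructor
  · have h1 : (0.249 : ℝ) * ((s + 2) * (s + 1)) ≤ (i + 2) * (s - i) := by
      nlinarith [hb.1, hb.2]
    have h2 : (0.249 * X) * ((s + 2) * (s + 1)) ≤ Y * ((s + 2) * (s + 1)) := by
      calc (0.249 * X) * ((s + 2) * (s + 1)) = X * (0.249 * ((s + 2) * (s + 1))) := by ring
        _ ≤ X * ((i + 2) * (s - i)) := mul_le_mul_of_nonneg_left h1 hX0
        _ = Y * ((s + 2) * (s + 1)) := by rw [h]; ring
    exact le_of_mul_le_mul_right h2 hpos
  · have h1 : ((i : ℝ) + 2) * (s - i) ≤ 0.253 * ((s + 2) * (s + 1)) := by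
      nlinarith [sq_nonneg (2 * ((i : ℝ) + 2) - (s + 2))]
    have h2 : Y * ((s + 2) * (s + 1)) ≤ (0.253 * X) * ((s + 2) * (s + 1)) := by
      calc Y * ((s + 2) * (s + 1)) = X * ((i + 2) * (s - i)) := by rw [h]; ring
        _ ≤ X * (0.253 * ((s + 2) * (s + 1))) := mul_le_mul_of_nonneg_left h1 hX0
        _ = _ := by ring
    exact le_of_mul_le_mul_right h2 hpos

/-! ### the angle -/

/-- the threshold -/
noncomputable def z0 : ℝ := 1 / 20000

/-- the bound for `|1 + e(x)|` away from `0` -/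
noncomputable def kap : ℝ := Real.sqrt (2 + 2 * Real.cos (2 * Real.pi * z0))

theorem kap_lt : kap < 2 := by
  rw [kap, show (2 : ℝ) = Real.sqrt 4 by
    rw [show (4 : ℝ) = 2 ^ 2 by norm_num, Real.sqrt_sq (by norm_num)]]
  apply Real.sqrt_lt_sqrt
  · have := Real.neg_one_le_cos (2 * Real.pi * z0)
    have h4 : Real.sqrt 4 = 2 := by
      rw [show (4 : ℝ) = 2 ^ 2 by norm_num, Real.sqrt_sq (by norm_num)]
    rw [h4]
    linarith
  · have h4 : Real.sqrt 4 = 2 := by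
      rw [show (4 : ℝ) = 2 ^ 2 by norm_num, Real.sqrt_sq (by norm_num)]
    rw [h4]
    have h1 : Real.cos (2 * Real.pi * z0) < 1 := by
      rw [← Real.cos_zero]
      have hpi := Real.pi_pos
      apply Real.cos_lt_cos_of_nonneg_of_le_pi le_rfl
      · rw [z0]; linarith
      · rw [z0]; linarith
    linarith

theorem kap_nonneg : 0 ≤ kap := Real.sqrt_nonneg _

theorem norm_one_add_exp (x : ℝ) : ‖1 + Complex.exp (x * Complex.I)‖ =
    Real.sqrt (2 + 2 * Real.cos x) := by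
  rw [Complex.norm_eq_sqrt_sq_add_sq]
  congr 1
  rw [Complex.add_re, Complex.add_im, Complex.exp_ofReal_mul_I_re, Complex.exp_ofReal_mul_I_im]
  simp only [Complex.one_re, Complex.one_im]
  have := Real.sin_sq_add_cos_sq x
  nlinarith

theorem norm_one_add_ee (n : ℕ) (A : ZMod (3 ^ n)) (h : z0 * 3 ^ n ≤ |(A.valMinAbs : ℝ)|) :
    ‖1 + ee n A‖ ≤ kap := by
  have h3 : (0 : ℝ) < 3 ^ n := by positivity
  have h1 : ee n A = Complex.exp (((2 * Real.pi * (A.valMinAbs : ℝ) / 3 ^ n : ℝ) : ℂ) * Complex.I) := by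
    have : ee n A = ZMod.stdAddChar ((A.valMinAbs : ℤ) : ZMod (3 ^ n)) := by
      rw [ee, ZMod.coe_valMinAbs]
    rw [this, ZMod.stdAddChar_coe]
    congr 1
    push_cast
    ring
  rw [h1, norm_one_add_exp, kap]
  apply Real.sqrt_le_sqrt
  have hpi := Real.pi_pos
  have hle : |(A.valMinAbs : ℝ)| ≤ 3 ^ n / 2 := by
    have h4 := ZMod.natAbs_valMinAbs_le A
    have h5 : 2 * A.valMinAbs.natAbs ≤ 3 ^ n := by omega
    have h6 : (2 : ℝ) * (A.valMinAbs.natAbs : ℝ) ≤ 3 ^ n := by exact_mod_cast h5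
    have h7 : ((A.valMinAbs.natAbs : ℕ) : ℝ) = |(A.valMinAbs : ℝ)| := by
      rw [Nat.cast_natAbs, Int.cast_abs]
    rw [h7] at h6
    linarith
  have h2 : Real.cos (2 * Real.pi * (A.valMinAbs : ℝ) / 3 ^ n) ≤ Real.cos (2 * Real.pi * z0) := by
    rw [← Real.cos_abs (2 * Real.pi * (A.valMinAbs : ℝ) / 3 ^ n)]
    have h8 : |2 * Real.pi * (A.valMinAbs : ℝ) / 3 ^ n| = 2 * Real.pi * |(A.valMinAbs : ℝ)| / 3 ^ n := by
      rw [abs_div, abs_mul, abs_of_pos h3, abs_of_pos (show 0 < 2 * Real.pi by positivity)]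
    rw [h8]
    apply Real.cos_le_cos_of_nonneg_of_le_pi
    · rw [z0]; positivity
    · rw [div_le_iff₀ h3]
      nlinarith
    · rw [le_div_iff₀ h3]
      nlinarith
  linarith

/-! ### the induction -/

/-- the gain of one step -/
noncomputable def rho : ℝ := 1 - 0.249 * (2 - kap)

theorem rho_lt : rho < 1 := by
  have := kap_lt
  rw [rho]
  linarith

theorem rho_pos : 0 < rho := by
  have := kap_nonneg
  rw [rho]
  linarith

theorem deep_case (hdeep : StDeep) (n q s i : ℕ) (a : ZMod (3 ^ n)) (hq : HasOrd n q a)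
    (hq1 : 1 ≤ q) (hqt : 8 * q + 20 ≤ 5 * (s + 2)) (hs : 98 ≤ s)
    (hb : 40 * |2 * ((i : ℝ) + 2) - (s + 2)| ≤ s + 2)
    (hz : |((a * h2 n ^ 2).valMinAbs : ℝ)| < z0 * 3 ^ n) :
    ‖Amp n (s + 2) (i + 2) a‖ ≤ 0.51 * ((s + 2).choose (i + 2) : ℝ) := by
  obtain ⟨w, hw⟩ := h2_unit n
  have hA : HasOrd n q (a * h2 n ^ 2) := by
    have := ord_mul_unit hq (w ^ 2)
    rwa [Units.val_pow_eq_pow_val, ← hw] at this
  obtain ⟨hne, hv⟩ := ord_valMinAbs hA hq1
  obtain ⟨v, b', hbodd, hbv⟩ : ∃ (v : ℕ) (b' : ℤ), Odd b' ∧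
      (a * h2 n ^ 2).valMinAbs = 2 ^ v * b' := by
    have hfin : FiniteMultiplicity (2 : ℤ) (a * h2 n ^ 2).valMinAbs :=
      Int.finiteMultiplicity_iff.2 ⟨by norm_num, hne⟩
    obtain ⟨c, hc, hc2⟩ := hfin.exists_eq_pow_mul_and_not_dvd
    refine ⟨_, c, ?_, hc⟩
    rw [← Int.not_even_iff_odd, even_iff_two_dvd]
    exact hc2
  have h5 := hv v b' hbv
  have hb' := hb
  rw [← abs_of_pos (show (0 : ℝ) < 40 by norm_num), ← abs_mul, abs_le] at hb'
  have hs' : (98 : ℝ) ≤ s := by exact_mod_cast hs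
  have h := hdeep n (s + 2) (i + 2) v a (a * h2 n ^ 2).valMinAbs b'
    (ZMod.coe_valMinAbs _).symm hbv hbodd (by omega) (by
      push_cast
      linarith [hb'.2])
  have e0 : chm (s + 2 - 2) (i + 2) 0 = s.choose (i + 2) := by simp [chm]
  have e1 : chm (s + 2 - 2) (i + 2) 1 = s.choose (i + 1) := by simp [chm]
  have e2 : chm (s + 2 - 2) (i + 2) 2 = s.choose i := by simp [chm]
  rw [e0, e1, e2] at h
  refine h.trans ?_
  obtain ⟨m1, m2⟩ := mid_bounds s i hs hb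
  have hc := choose_two s i
  have hc' : ((s + 2).choose (i + 2) : ℝ) =
      s.choose (i + 2) + 2 * s.choose (i + 1) + s.choose i := by exact_mod_cast hc
  have h3 : (0 : ℝ) < 3 ^ n := by positivity
  have hsq : Real.sqrt (4 * Real.pi * |((a * h2 n ^ 2).valMinAbs : ℝ)| / 3 ^ n) ≤ 0.0252 := by
    rw [Real.sqrt_le_left (by norm_num)]
    rw [div_le_iff₀ h3]
    have hpi := Real.pi_lt_d2
    have hpi0 := Real.pi_pos
    have h6 : 4 * Real.pi * |((a * h2 n ^ 2).valMinAbs : ℝ)| ≤ 4 * 3.15 * (z0 * 3 ^ n) := by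
      apply mul_le_mul _ hz.le (abs_nonneg _) (by norm_num)
      linarith
    refine h6.trans ?_
    rw [z0]
    nlinarith
  have hY0 : (0 : ℝ) ≤ s.choose (i + 1) := Nat.cast_nonneg _
  have h7 : Real.sqrt (4 * Real.pi * |((a * h2 n ^ 2).valMinAbs : ℝ)| / 3 ^ n) *
      (s.choose (i + 1) : ℝ) ≤ 0.0252 * (s.choose (i + 1) : ℝ) :=
    mul_le_mul_of_nonneg_right hsq hY0
  have hX0 : (0 : ℝ) ≤ (s + 2).choose (i + 2) := Nat.cast_nonneg _
  linarith

/-- `r` pairs of steps -/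
theorem pairs (htwo : StTwo) (hdeep : StDeep)
    (hnorm : ∀ (n t j : ℕ) (a : ZMod (3 ^ n)), ‖Amp n t j a‖ ≤ (t.choose j : ℝ)) (r : ℕ) :
    ∀ (n q t j : ℕ) (a : ZMod (3 ^ n)), HasOrd n q a → 2 * r + 1 ≤ q →
      8 * q + 10 * r + 20 ≤ 5 * t → 100 + 2 * r ≤ t →
      40 * |2 * (j : ℝ) - t| + 120 * r ≤ t →
      ‖Amp n t j a‖ ≤ max 0.51 (rho ^ r) * (t.choose j : ℝ) := by
  induction r with
  | zero =>
    intro n q t j a _ _ _ _ _
    refine (hnorm n t j a).trans ?_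
    have : (1 : ℝ) ≤ max 0.51 (rho ^ 0) := by
      rw [pow_zero]
      exact le_max_right _ _
    have h0 : (0 : ℝ) ≤ (t.choose j : ℝ) := Nat.cast_nonneg _
    nlinarith
  | succ r ih =>
    intro n q t j a hq hq1 hqt ht hb
    push_cast at hb
    have hb' := hb
    have hjt : |2 * (j : ℝ) - t| ≤ t / 40 := by
      have : (0 : ℝ) ≤ r := Nat.cast_nonneg _
      linarith
    have ht' : (100 : ℝ) ≤ t := by
      have : 100 ≤ t := by omega
      exact_mod_cast this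
    obtain ⟨s, rfl⟩ : ∃ s, t = s + 2 := ⟨t - 2, by omega⟩
    have hj2 : 2 ≤ j := by
      rw [abs_le] at hjt
      have : (2 : ℝ) ≤ j := by linarith [hjt.1]
      exact_mod_cast this
    obtain ⟨i, rfl⟩ : ∃ i, j = i + 2 := ⟨j - 2, by omega⟩
    have hr0 : (0 : ℝ) ≤ r := Nat.cast_nonneg _
    have hbs : 40 * |2 * ((i : ℝ) + 2) - (s + 2)| ≤ s + 2 := by
      push_cast at hb
      linarith
    by_cases hz : |((a * h2 n ^ 2).valMinAbs : ℝ)| < z0 * 3 ^ n
    · have h := deep_case hdeep n q s i a hq (by omega) (by omega) (by omega) hbs hz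
      refine h.trans ?_
      exact mul_le_mul_of_nonneg_right (le_max_left _ _) (Nat.cast_nonneg _)
    · have hk := norm_one_add_ee n (a * h2 n ^ 2) (not_lt.1 hz)
      have h := htwo n s (i + 2) a
      rw [if_pos (by omega), if_pos (by omega)] at h
      obtain ⟨w, hw⟩ := h2_unit n
      have hA : HasOrd n q (a * h2 n ^ 2) := by
        have := ord_mul_unit hq (w ^ 2)
        rwa [Units.val_pow_eq_pow_val, ← hw] at this
      obtain ⟨q', rfl⟩ : ∃ q', q = q' + 2 := ⟨q - 2, by omega⟩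
      have hA1 : HasOrd n (q' + 1) (3 * a * h2 n ^ 2) := by
        have := ord_three_mul hA
        rwa [← mul_assoc] at this
      have hA2 : HasOrd n q' (9 * a * h2 n ^ 2) := by
        have := ord_three_mul hA1
        have e : 3 * (3 * a * h2 n ^ 2) = 9 * a * h2 n ^ 2 := by ring
        rwa [e] at this
      have hbal : ∀ e : ℝ, |e| ≤ 2 → ∀ jj : ℕ, (2 * (jj : ℝ) - s) = 2 * ((i + 2 : ℕ) : ℝ) - ((s + 2 : ℕ) : ℝ) + e →
          40 * |2 * (jj : ℝ) - s| + 120 * (r : ℝ) ≤ s := by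
        intro e he jj hjj
        rw [hjj]
        have h1 := abs_add_le (2 * ((i + 2 : ℕ) : ℝ) - ((s + 2 : ℕ) : ℝ)) e
        push_cast at hb h1 ⊢
        linarith
      have i0 := ih n (q' + 2) s (i + 2) (a * h2 n ^ 2) hA (by omega) (by omega) (by omega)
        (hbal 2 (by norm_num) (i + 2) (by push_cast; ring))
      have i1 := ih n (q' + 1) s (i + 1) (3 * a * h2 n ^ 2) hA1 (by omega) (by omega) (by omega)
        (hbal 0 (by rw [abs_zero]; norm_num) (i + 1) (by push_cast; ring))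
      have i2 := ih n q' s i (9 * a * h2 n ^ 2) hA2 (by omega) (by omega) (by omega)
        (hbal (-2) (by norm_num) i (by push_cast; ring))
      have e1 : i + 2 - 1 = i + 1 := by omega
      have e2 : i + 2 - 2 = i := by omega
      rw [e1, e2] at h
      set M : ℝ := max 0.51 (rho ^ r) with hM
      have hM0 : 0 ≤ M := le_trans (by norm_num) (le_max_left _ _)
      obtain ⟨m1, m2⟩ := mid_bounds s i (by omega) hbs
      have hc := choose_two s i
      have hc' : ((s + 2).choose (i + 2) : ℝ) =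
          s.choose (i + 2) + 2 * s.choose (i + 1) + s.choose i := by exact_mod_cast hc
      have hY0 : (0 : ℝ) ≤ s.choose (i + 1) := Nat.cast_nonneg _
      have hX0 : (0 : ℝ) ≤ (s + 2).choose (i + 2) := Nat.cast_nonneg _
      have h1 : ‖1 + ee n (a * h2 n ^ 2)‖ * ‖Amp n s (i + 1) (3 * a * h2 n ^ 2)‖ ≤
          kap * (M * (s.choose (i + 1) : ℝ)) :=
        mul_le_mul hk i1 (norm_nonneg _) kap_nonneg
      have h2 : ‖Amp n (s + 2) (i + 2) a‖ ≤ M * ((s + 2).choose (i + 2) -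
          (2 - kap) * s.choose (i + 1)) := by
        rw [hc']
        nlinarith
      have h3 : ((s + 2).choose (i + 2) : ℝ) - (2 - kap) * s.choose (i + 1) ≤
          rho * (s + 2).choose (i + 2) := by
        have h4 : (2 - kap) * (0.249 * ((s + 2).choose (i + 2) : ℝ)) ≤
            (2 - kap) * (s.choose (i + 1) : ℝ) :=
          mul_le_mul_of_nonneg_left m1 (by linarith [kap_lt])
        rw [rho]
        linarith
      have h4 : M * rho ≤ max 0.51 (rho ^ (r + 1)) := by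
        rw [hM, max_mul_of_nonneg _ _ rho_pos.le]
        apply max_le
        · refine le_trans ?_ (le_max_left _ _)
          have := rho_lt
          nlinarith
        · rw [pow_succ]
          exact le_max_right _ _
      calc ‖Amp n (s + 2) (i + 2) a‖ ≤ M * ((s + 2).choose (i + 2) -
          (2 - kap) * s.choose (i + 1)) := h2
        _ ≤ M * (rho * (s + 2).choose (i + 2)) := mul_le_mul_of_nonneg_left h3 hM0
        _ = (M * rho) * (s + 2).choose (i + 2) := by ring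
        _ ≤ max 0.51 (rho ^ (r + 1)) * (s + 2).choose (i + 2) :=
          mul_le_mul_of_nonneg_right h4 hX0

theorem seg_of (htwo : StTwo) (hdeep : StDeep)
    (hnorm : ∀ (n t j : ℕ) (a : ZMod (3 ^ n)), ‖Amp n t j a‖ ≤ (t.choose j : ℝ)) : StSeg := by
  obtain ⟨r, hr⟩ := exists_pow_lt_of_lt_one (show (0 : ℝ) < 0.51 by norm_num) rho_lt
  refine ⟨400 * r + 200, fun n q t j a hq hq0 ht hj => ?_⟩
  have ht1 : 5 * q ≤ 3 * t + 2 := by omega
  have h := pairs htwo hdeep hnorm r n q t j a hq (by omega) (by omega) (by omega) (by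
    have h1 : 600 * r ≤ t := by omega
    have h2 : (600 : ℝ) * r ≤ t := by exact_mod_cast h1
    linarith)
  rwa [max_eq_left hr.le] at h

/-- Job SEG2. -/
theorem seg (htwo : StTwo) (hdeep : StDeep) : StSeg :=
  seg_of htwo hdeep fun n t j a => norm_Amp_le n t j a

end Pool.Agent.K7.H5.TD
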