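import Pool.Agent.K7.H5.TD.Seg
import Pool.Agent.K7.H42.TD.Deep

/-!
# Job SEG of project TD (helper66): `StSeg` (helper5, helper42)
-/

set_option autoImplicit false

namespace Pool.Agent.K7.H5.TD

open Pool.Agent.K7.H66.TD

theorem stSeg : StSeg := seg Pool.Agent.K7.H42.TD.two Pool.Agent.K7.H42.TD.deep

end Pool.Agent.K7.H5.TD
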